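import Pool.Agent.H20.JL.VF

set_option autoImplicit false

open Filter Topology Polynomial MeasureTheory Metric

namespace Pool.Agent.Results.MP_28f8a1_an.LinearJuliaAreaLaw

/-- The polynomial as a self-map of the plane. -/
def map (T : ℂ[X]) : ℂ → ℂ := fun w : ℂ => T.eval w

/-- The orbit of `z` escapes to infinity. -/
def Escapes (T : ℂ[X]) (z : ℂ) : Prop :=
  Tendsto (fun k : ℕ => ‖(map T)^[k] z‖) atTop atTop

/-- The orbit of `z` is attracted by a sink (attracting periodic point) of `T`. -/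
def Attracted (T : ℂ[X]) (z : ℂ) : Prop :=
  ∃ n : ℕ, 0 < n ∧ ∃ x : ℂ, (map T)^[n] x = x ∧ ‖deriv ((map T)^[n]) x‖ < 1 ∧
    Tendsto (fun k : ℕ => (map T)^[n * k] z) atTop (𝓝 x)

/-- The point `z` belongs to the basin of a parabolic cycle of `T`. -/
def InParabolicBasin (T : ℂ[X]) (z : ℂ) : Prop :=
  ∃ (n : ℕ) (x : ℂ), 0 < n ∧ (map T)^[n] x = x ∧ deriv ((map T)^[n]) x = 1 ∧
    Tendsto (fun k : ℕ => (map T)^[n * k] z) atTop (𝓝 x) ∧ ∀ k : ℕ, (map T)^[n * k] z ≠ x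

/-- The point `z` is mapped by an iterate of `T` into a disc on which an iterate of `T` is
conjugate to an irrational rotation (a Siegel disc). -/
def InSiegelDisc (T : ℂ[X]) (z : ℂ) : Prop :=
  ∃ (m n : ℕ) (r : ℝ) (h : ℂ → ℂ) (ρ : ℂ), 0 < n ∧ 0 < r ∧ ‖ρ‖ = 1 ∧
    (∀ k : ℕ, 0 < k → ρ ^ k ≠ 1) ∧ DifferentiableOn ℂ h (ball 0 r) ∧ Set.InjOn h (ball 0 r) ∧
    (∀ w ∈ ball (0 : ℂ) r, (map T)^[n] (h w) = h (ρ * w)) ∧ (map T)^[m] z ∈ h '' ball 0 r

/-- The points which are in none of the basins and not mapped into a Siegel disc. By Sullivan's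
theorem and the classification of periodic Fatou components this is the Julia set of `T`. -/
def Js (T : ℂ[X]) : Set ℂ :=
  {z : ℂ | ¬ (Escapes T z ∨ Attracted T z ∨ InParabolicBasin T z ∨ InSiegelDisc T z)}

/-- `S` is hyperbolic: every critical point escapes or is attracted by a sink. -/
def Hyperbolic (S : ℂ[X]) : Prop :=
  ∀ c : ℂ, (derivative S).eval c = 0 → Escapes S c ∨ Attracted S c

theorem Js_eq (T : ℂ[X]) : Js T = Pool.Agent.H713R5.QJ.JS T := by
  ext z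
  have : (Pool.Agent.H713R5.QJ.Good (Pool.Agent.H713R5.QJ.ev T) z ∨
      Pool.Agent.H713R5.QJ.Para (Pool.Agent.H713R5.QJ.ev T) z ∨
      Pool.Agent.H713R5.QJ.Sieg (Pool.Agent.H713R5.QJ.ev T) z) ↔
      (Escapes T z ∨ Attracted T z ∨ InParabolicBasin T z ∨ InSiegelDisc T z) :=
    or_assoc
  exact (not_congr this).symm

/-- The linear law: on every compact set of polynomials of degree `d` (coefficients bounded by `A`,
leading coefficient at least `1 / A` in modulus) the distance of `T` to the hyperbolic polynomials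
of degree `d` with the same leading coefficient is at most `C * area (Js T)`, with a constant `C`
which depends only on `d` and `A`. -/
theorem result :
    ∀ (d : ℕ) (A : ℝ), 2 ≤ d → 0 < A → ∃ C : ℝ, 0 < C ∧ ∀ T : ℂ[X], T.natDegree = d →
      (∀ i : ℕ, ‖T.coeff i‖ ≤ A) → 1 / A ≤ ‖T.leadingCoeff‖ → volume (Js T) < ⊤ ∧
      ∀ ε : ℝ, C * (volume (Js T)).toReal < ε →
        ∃ S : ℂ[X], S.natDegree = d ∧ S.leadingCoeff = T.leadingCoeff ∧
          (∀ i : ℕ, ‖S.coeff i - T.coeff i‖ < ε) ∧ Hyperbolic S := by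
  intro d A hd hA
  obtain ⟨C, hC, h⟩ := Pool.Agent.H20.JL.vtl d A hd hA
  refine ⟨C, hC, ?_⟩
  intro T hTd hTA hTl
  rw [Js_eq]
  obtain ⟨h1, h2⟩ := h T hTd hTA hTl
  refine ⟨h1, fun ε hε => ?_⟩
  obtain ⟨S, e1, e2, e3, e4⟩ := h2 ε hε
  exact ⟨S, e1.trans hTd, e2, e3, e4⟩

end Pool.Agent.Results.MP_28f8a1_an.LinearJuliaAreaLaw
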