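import Pool.Agent.H20.KL.EVF

set_option autoImplicit false

open Filter Topology Polynomial MeasureTheory

namespace Pool.Agent.Results.MP_28f8a1_an.LinearShiftLocusLaw

/-- The polynomial as a self-map of the plane. -/
def map (T : ℂ[X]) : ℂ → ℂ := fun w : ℂ => T.eval w

/-- The orbit of `z` escapes to infinity. -/
def Escapes (T : ℂ[X]) (z : ℂ) : Prop :=
  Tendsto (fun k : ℕ => ‖(map T)^[k] z‖) atTop atTop

/-- The filled Julia set: the points which do not escape. -/
def K (T : ℂ[X]) : Set ℂ := {z : ℂ | ¬ Escapes T z}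

/-- `S` belongs to the shift locus: all its critical points escape. -/
def InShiftLocus (S : ℂ[X]) : Prop := ∀ c : ℂ, (derivative S).eval c = 0 → Escapes S c

/-- The linear law for the distance to the shift locus: on every compact set of polynomials of
degree `d` (coefficients bounded by `A`, leading coefficient at least `1 / A` in modulus) the
distance of `T` to the polynomials of degree `d` with the same leading coefficient all of whose
critical points escape is at most `C * area (K T)`, with a constant `C` which depends only on `d`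
and `A`. -/
theorem result :
    ∀ (d : ℕ) (A : ℝ), 2 ≤ d → 0 < A → ∃ C : ℝ, 0 < C ∧ ∀ T : ℂ[X], T.natDegree = d →
      (∀ i : ℕ, ‖T.coeff i‖ ≤ A) → 1 / A ≤ ‖T.leadingCoeff‖ → volume (K T) < ⊤ ∧
      ∀ ε : ℝ, C * (volume (K T)).toReal < ε →
        ∃ S : ℂ[X], S.natDegree = d ∧ S.leadingCoeff = T.leadingCoeff ∧
          (∀ i : ℕ, ‖S.coeff i - T.coeff i‖ < ε) ∧ InShiftLocus S := by
  intro d A hd hA
  obtain ⟨C, hC, h⟩ := Pool.Agent.H20.KL.mainE d A hd hA
  refine ⟨C, hC, ?_⟩
  intro T hTd hTA hTl
  obtain ⟨h1, h2⟩ := h T hTd hTA hTl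
  refine ⟨h1, fun ε hε => ?_⟩
  obtain ⟨S, e1, e2, e3, e4⟩ := h2 ε hε
  exact ⟨S, e1.trans hTd, e2, e3, e4⟩

end Pool.Agent.Results.MP_28f8a1_an.LinearShiftLocusLaw
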