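import Pool.Agent.H20.MZ.Fin

set_option autoImplicit false

open Filter Topology Polynomial MeasureTheory

namespace Pool.Agent.Results.MP_28f8a1_an.QuadraticLawMisiurewicz

/-- The polynomial as a self-map of the plane. -/
def map (T : ℂ[X]) : ℂ → ℂ := fun w : ℂ => T.eval w

/-- The orbit of `z` escapes to infinity. -/
def Escapes (T : ℂ[X]) (z : ℂ) : Prop :=
  Tendsto (fun k : ℕ => ‖(map T)^[k] z‖) atTop atTop

/-- The orbit of `z` is attracted by a sink (attracting periodic point) of `T`. -/
def Attracted (T : ℂ[X]) (z : ℂ) : Prop :=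
  ∃ n : ℕ, 0 < n ∧ ∃ x : ℂ, (map T)^[n] x = x ∧ ‖deriv ((map T)^[n]) x‖ < 1 ∧
    Tendsto (fun k : ℕ => (map T)^[n * k] z) atTop (𝓝 x)

/-- `c` is a simple zero of `T'`, an iterate of `c` is a repelling periodic point, and `T'` does not
vanish at the points `T^k(c)` with `k ≥ 1`. -/
def Lands (T : ℂ[X]) (c : ℂ) : Prop :=
  (derivative (derivative T)).eval c ≠ 0 ∧
    (∀ k : ℕ, 1 ≤ k → (derivative T).eval ((map T)^[k] c) ≠ 0) ∧
    ∃ m n : ℕ, 0 < n ∧ (map T)^[n] ((map T)^[m] c) = (map T)^[m] c ∧
      1 < ‖deriv ((map T)^[n]) ((map T)^[m] c)‖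

/-- The points which neither escape nor are attracted by a sink. -/
def Bad (S : ℂ[X]) : Set ℂ := {z : ℂ | ¬ (Escapes S z ∨ Attracted S z)}

/-- The filled Julia set: the points which do not escape. -/
def K (S : ℂ[X]) : Set ℂ := {z : ℂ | ¬ Escapes S z}

/-- `S` is hyperbolic: every critical point escapes or is attracted by a sink. -/
def Hyperbolic (S : ℂ[X]) : Prop :=
  ∀ c : ℂ, (derivative S).eval c = 0 → Escapes S c ∨ Attracted S c

/-- `S` belongs to the shift locus: all its critical points escape. -/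
def InShiftLocus (S : ℂ[X]) : Prop := ∀ c : ℂ, (derivative S).eval c = 0 → Escapes S c

/-- For the polynomials `S` of the degree of `T` with coefficients within `r` of those of `T`, with
`r` small, the area of `E S` is at most `C * r ^ 2` and there is a polynomial `Q` with property `W`,
of the same degree and with the same leading coefficient as `S`, with coefficients within
`C * r ^ 2` of those of `S`. -/
def QuadraticLaw (T : ℂ[X]) (E : ℂ[X] → Set ℂ) (W : ℂ[X] → Prop) : Prop :=
  ∃ C r₀ : ℝ, 0 < C ∧ 0 < r₀ ∧ ∀ r : ℝ, 0 < r → r < r₀ → ∀ S : ℂ[X], S.natDegree = T.natDegree →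
    (∀ i : ℕ, ‖S.coeff i - T.coeff i‖ ≤ r) → volume (E S) ≤ ENNReal.ofReal (C * r ^ 2) ∧
    ∃ Q : ℂ[X], Q.natDegree = T.natDegree ∧ Q.leadingCoeff = S.leadingCoeff ∧
      (∀ i : ℕ, ‖Q.coeff i - S.coeff i‖ ≤ C * r ^ 2) ∧ W Q

theorem attracted_iff (S : ℂ[X]) (z : ℂ) : Escapes S z ∨ Attracted S z ↔
    Pool.Agent.H713R5.QJ.Good (Pool.Agent.H713R5.QJ.ev S) z := Iff.rfl

theorem lands (T : ℂ[X]) (c : ℂ) (h : Lands T c) : Pool.Agent.H20.MZ.LandR T c := by
  obtain ⟨h1, h2, m, n, h3, h4, h5⟩ := h
  exact ⟨h1, fun k => h2 (k + 1) (by omega), m, n, h3, h4, h5⟩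

/-- The quadratic law near Misiurewicz polynomials. If every critical point of `T` escapes, is
attracted by a sink or is simple and lands on a repelling cycle, then all polynomials `S` at
distance `r` of `T` have a hyperbolic polynomial at distance `C * r ^ 2`, and the set of the points
which are not in the basins of `S` has area at most `C * r ^ 2`. If moreover no critical point of
`T` is attracted by a sink, then the same holds for the filled Julia set of `S` and the distance
to the shift locus. -/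
theorem result : ∀ T : ℂ[X], 2 ≤ T.natDegree →
    ((∀ c : ℂ, (derivative T).eval c = 0 → Escapes T c ∨ Attracted T c ∨ Lands T c) →
      QuadraticLaw T Bad Hyperbolic) ∧
    ((∀ c : ℂ, (derivative T).eval c = 0 → Escapes T c ∨ Lands T c) →
      QuadraticLaw T K InShiftLocus) := by
  intro T hT
  refine ⟨fun hc => ?_, fun hc => ?_⟩
  · obtain ⟨C, r₀, hC, hr₀, h⟩ := Pool.Agent.H20.MZ.quadG hT fun c h0 => by
      rcases hc c h0 with h | h | h
      · exact Or.inl (Or.inl h)
      · exact Or.inl (Or.inr h)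
      · exact Or.inr (lands T c h)
    exact ⟨C, r₀, hC, hr₀, h⟩
  · obtain ⟨C, r₀, hC, hr₀, h⟩ := Pool.Agent.H20.MZ.quadE hT fun c h0 => by
      rcases hc c h0 with h | h
      · exact Or.inl h
      · exact Or.inr (lands T c h)
    exact ⟨C, r₀, hC, hr₀, h⟩

end Pool.Agent.Results.MP_28f8a1_an.QuadraticLawMisiurewicz
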