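import Pool.Agent.H20.SH.High2

set_option autoImplicit false

open Filter Topology Polynomial MeasureTheory

namespace Pool.Agent.Results.MP_28f8a1_an.ShiftLocusLawSharp

/-- The polynomial as a self-map of the plane. -/
def map (T : ℂ[X]) : ℂ → ℂ := fun w : ℂ => T.eval w

/-- The orbit of `z` escapes to infinity. -/
def Escapes (T : ℂ[X]) (z : ℂ) : Prop :=
  Tendsto (fun k : ℕ => ‖(map T)^[k] z‖) atTop atTop

/-- The filled Julia set: the points which do not escape. -/
def K (T : ℂ[X]) : Set ℂ := {z : ℂ | ¬ Escapes T z}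

/-- `S` belongs to the shift locus: all its critical points escape. -/
def InShiftLocus (S : ℂ[X]) : Prop := ∀ c : ℂ, (derivative S).eval c = 0 → Escapes S c

/-- The linear law for the distance to the shift locus is sharp in every degree: there are
polynomials of degree `d` (coefficients bounded by `A`, leading coefficient at least `1 / A` in
modulus) whose filled Julia sets have arbitrarily small positive area, such that no polynomial of
degree `d` with all coefficients closer than `c * area (K T)` to those of `T` belongs to the shift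
locus. -/
theorem result :
    ∀ d : ℕ, 2 ≤ d → ∃ A c : ℝ, 0 < A ∧ 0 < c ∧ ∀ η : ℝ, 0 < η →
      ∃ T : ℂ[X], T.natDegree = d ∧ (∀ i : ℕ, ‖T.coeff i‖ ≤ A) ∧ 1 / A ≤ ‖T.leadingCoeff‖ ∧
        0 < volume (K T) ∧ volume (K T) < ENNReal.ofReal η ∧
        ∀ S : ℂ[X], S.natDegree = d →
          (∀ i : ℕ, ‖S.coeff i - T.coeff i‖ < c * (volume (K T)).toReal) →
            ¬ InShiftLocus S := by
  intro d hd
  obtain ⟨A, c, hA, hc, h⟩ := Pool.Agent.H20.SH.mainS d hd
  refine ⟨A, c, hA, hc, fun η hη => ?_⟩
  obtain ⟨T, e1, e2, e3, e4, e5, e6⟩ := h η hη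
  refine ⟨T, e1, e2, e3, e4, e5, fun S hS hST hin => ?_⟩
  obtain ⟨z, hz1, hz2⟩ := e6 S hS hST
  exact hz2 (hin z hz1)

end Pool.Agent.Results.MP_28f8a1_an.ShiftLocusLawSharp
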